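import Pool.Agent.MP_bd94e8_al.H83A.Cor
import Pool.Agent.MP_bd94e8_al.H44B.RawA

/-!
A separable element in a local corner.
-/

set_option autoImplicit false
set_option linter.unusedSectionVars false

namespace Pool.Agent.MP_bd94e8_al.H83A

open Module Function Polynomial IsLocalRing H89

namespace PolyA

/-- The dichotomy for a local algebra. -/
theorem loc (C E : Type) [CommRing C] [IsArtinianRing C] [IsLocalRing C] [Ring E] [Algebra C E]
    [Module.Finite C E] [Nontrivial E] (h : ∀ x : E, IsNilpotent x ∨ IsUnit x) :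
    ((∀ b : E, ∃ (r : ℕ) (c : C),
        IsNilpotent (b ^ (ringExpChar (ResidueField C) ^ r) - algebraMap C E c)) ∧
      ∀ b b' : E, IsNilpotent (b * b' - b' * b)) ∨
    ∃ (b : E) (g : C[X]), g.Monic ∧ 2 ≤ g.natDegree ∧
      Irreducible (g.map (residue C)) ∧ (g.map (residue C)).Separable ∧
      IsNilpotent (aeval b g) ∧
      ∀ Q : C[X], IsNilpotent (aeval b Q) → g.map (residue C) ∣ Q.map (residue C) := by
  have hl : LocAt (1 : E) := by
    intro b
    rw [one_mul, mul_one]
    rcases h b with h1 | ⟨u, rfl⟩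
    · exact Or.inl h1
    · exact Or.inr ⟨↑u⁻¹, by simp, by simp, by simp⟩
  let N : Ideal E := Ring.jacobson E
  have hz : ∀ x : E, Ideal.Quotient.mkₐ C N x = 0 ↔ IsNilpotent x := fun x =>
    Ideal.Quotient.eq_zero_iff_mem.trans
      ⟨jac_nil C, hl.mem_jac IsIdempotentElem.one (by rw [one_mul, mul_one])⟩
  have hsurj : Surjective (Ideal.Quotient.mkₐ C N) := Ideal.Quotient.mkₐ_surjective C N
  have : Nontrivial (E ⧸ N) := ⟨1, 0, fun h => not_isNilpotent_one ((hz 1).1 (by rw [map_one, h]))⟩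
  have hu : ∀ a : E ⧸ N, IsUnit a ∨ a = 0 := by
    intro a
    obtain ⟨x, rfl⟩ := hsurj a
    rcases h x with h | h
    · exact Or.inr ((hz x).2 h)
    · exact Or.inl (h.map _)
  let _ : DivisionRing (E ⧸ N) := DivisionRing.ofIsUnitOrEqZero hu
  have hm : ∀ c ∈ maximalIdeal C, algebraMap C (E ⧸ N) c = 0 := by
    intro c hc
    rw [← (Ideal.Quotient.mkₐ C N).commutes, hz]
    exact (max_nil C hc).map _
  let φ : ResidueField C →+* (E ⧸ N) := Ideal.Quotient.lift (maximalIdeal C) (algebraMap C _) hm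
  have hφ : ∀ c : C, φ (residue C c) = algebraMap C _ c := fun c => rfl
  let _ : Algebra (ResidueField C) (E ⧸ N) := φ.toAlgebra' fun c x => by
    obtain ⟨c, rfl⟩ := residue_surjective c
    rw [hφ]
    exact Algebra.commutes c x
  have : IsScalarTower C (ResidueField C) (E ⧸ N) := IsScalarTower.of_algebraMap_eq fun c => rfl
  have : Module.Finite C (E ⧸ N) :=
    Module.Finite.of_surjective (Ideal.Quotient.mkₐ C N).toLinearMap hsurj
  have : Module.Finite (ResidueField C) (E ⧸ N) := Module.Finite.of_restrictScalars_finite C _ _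
  have hev : ∀ (b : E) (Q : C[X]), IsNilpotent (aeval b Q) ↔
      aeval (Ideal.Quotient.mkₐ C N b) (Q.map (residue C)) = 0 := by
    intro b Q
    rw [← hz, ← aeval_algHom_apply, ← aeval_map_algebraMap (ResidueField C)]
    rfl
  by_cases h : ∀ x : E ⧸ N, ∃ (r : ℕ) (c : ResidueField C),
      x ^ (ringExpChar (ResidueField C) ^ r) = algebraMap (ResidueField C) _ c
  · refine Or.inl ⟨fun b => ?_, fun b b' => ?_⟩
    · obtain ⟨r, c, e⟩ := h (Ideal.Quotient.mkₐ C N b)
      obtain ⟨c, rfl⟩ := residue_surjective c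
      refine ⟨r, c, (hz _).1 ?_⟩
      rw [map_sub, map_pow, AlgHom.commutes, sub_eq_zero]
      exact e
    · refine (hz _).1 ?_
      rw [map_sub, map_mul, map_mul, sub_eq_zero]
      exact RawA.comm_of_pi h _ _
  · obtain ⟨x, hx⟩ := not_forall.1 h
    obtain ⟨b, rfl⟩ := hsurj x
    obtain ⟨r, g, g1, g2, g3, g4, g5⟩ := (RawA.dich_div (k := ResidueField C) _).resolve_left hx
    obtain ⟨G, rfl, G1, G2⟩ := lifts_and_natDegree_eq_and_monic
      ((mem_lifts g).2 (map_surjective (residue C) residue_surjective g)) g1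
    rw [← map_pow] at g5
    refine Or.inr ⟨b ^ (ringExpChar (ResidueField C) ^ r), G, G2, G1 ▸ g4, g2, g3,
      (hev _ _).2 g5, fun Q hQ => ?_⟩
    rw [minpoly.eq_of_irreducible_of_monic g2 g5 g1]
    exact minpoly.dvd _ _ ((hev _ _).1 hQ)

section corner
variable (C : Type) {A : Type} [CommRing C] [Ring A] [Algebra C A]

/-- The corner without unit. -/
def corS (e : A) : NonUnitalSubalgebra C A where
  carrier := {b | e * b = b ∧ b * e = b}
  add_mem' := fun {a b} ha hb => ⟨by rw [mul_add, ha.1, hb.1], by rw [add_mul, ha.2, hb.2]⟩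
  zero_mem' := ⟨mul_zero _, zero_mul _⟩
  mul_mem' := fun {a b} ha hb => ⟨by rw [← mul_assoc, ha.1], by rw [mul_assoc, hb.2]⟩
  smul_mem' := fun c b hb => ⟨by rw [mul_smul_comm, hb.1], by rw [smul_mul_assoc, hb.2]⟩

/-- The corner as a type. -/
def Cor (e : A) (_h : IsIdempotentElem e) : Type := corS C e

variable {C} {e : A} {h : IsIdempotentElem e}

instance : Ring (Cor C e h) where
  __ : NonUnitalRing (Cor C e h) := inferInstanceAs (NonUnitalRing (corS C e))
  one := ⟨e, h.eq, h.eq⟩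
  one_mul x := Subtype.ext x.2.1
  mul_one x := Subtype.ext x.2.2

instance : Module C (Cor C e h) := inferInstanceAs (Module C (corS C e))

instance : Algebra C (Cor C e h) :=
  Algebra.ofModule (fun c x y => Subtype.ext (smul_mul_assoc c x.1 y.1))
    (fun c x y => Subtype.ext (mul_smul_comm c x.1 y.1))

/-- The inclusion of the corner. -/
def cv : Cor C e h →ₗ[C] A where
  toFun x := x.1
  map_add' _ _ := rfl
  map_smul' _ _ := rfl

theorem cv_inj : Injective (cv : Cor C e h → A) := Subtype.val_injective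

theorem cv_mul (x y : Cor C e h) : cv (x * y) = cv x * cv y := rfl

theorem cv_one : cv (1 : Cor C e h) = e := rfl

theorem cv_e (x : Cor C e h) : cv x * e = cv x := x.2.2

theorem e_cv (x : Cor C e h) : e * cv x = cv x := x.2.1

theorem cv_pow (x : Cor C e h) (n : ℕ) : cv (x ^ n) = cv x ^ n * e := by
  induction n with
  | zero => rw [pow_zero, pow_zero, one_mul, cv_one]
  | succ n ih => rw [pow_succ, cv_mul, ih, pow_succ, mul_assoc, e_cv, mul_assoc, cv_e]

theorem cv_pow' (x : Cor C e h) {n : ℕ} (hn : 0 < n) : cv (x ^ n) = cv x ^ n := by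
  obtain ⟨m, rfl⟩ : ∃ m, n = m + 1 := ⟨n - 1, by omega⟩
  rw [cv_pow, pow_succ, mul_assoc, cv_e]

theorem cv_nil {x : Cor C e h} : IsNilpotent (cv x) ↔ IsNilpotent x := by
  constructor
  · rintro ⟨n, hn⟩
    exact ⟨n, cv_inj (by rw [cv_pow, hn, zero_mul, map_zero])⟩
  · rintro ⟨n, hn⟩
    exact ⟨n + 1, by rw [← cv_pow' x n.succ_pos, pow_succ, hn, zero_mul, map_zero]⟩

theorem cv_alg (c : C) : cv (algebraMap C (Cor C e h) c) = c • e := by
  rw [Algebra.algebraMap_eq_smul_one, map_smul, cv_one]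

theorem cv_aeval (x : Cor C e h) (g : C[X]) : cv (aeval x g) = aeval (cv x) g * e := by
  induction g using Polynomial.induction_on' with
  | add p q hp hq => rw [map_add, map_add, hp, hq, map_add, add_mul]
  | monomial n a =>
    rw [aeval_monomial, aeval_monomial, ← Algebra.smul_def, ← Algebra.smul_def, map_smul, cv_pow,
      smul_mul_assoc]

theorem cv_surj (b : A) : ∃ x : Cor C e h, cv x = e * b * e :=
  ⟨⟨e * b * e, cn_left h (cn_cn h h b), cn_right h (cn_cn h h b)⟩, rfl⟩

end corner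

end PolyA

open PolyA in
theorem poly : SPoly := by
  intro C A _ _ _ _ _ _ e he h0 hl
  have : IsNoetherianRing C := inferInstance
  have : Module.Finite C (Cor C e he) := Module.Finite.of_injective cv cv_inj
  have : Nontrivial (Cor C e he) := ⟨1, 0, fun h => h0 (congrArg cv h)⟩
  have hc : ∀ x : Cor C e he, e * cv x * e = cv x := fun x => by rw [e_cv, cv_e]
  have hx : ∀ x : Cor C e he, IsNilpotent x ∨ IsUnit x := by
    intro x
    rcases hl.nil_or (hc x) with h1 | ⟨u, u1, u2, u3⟩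
    · exact Or.inl (cv_nil.1 h1)
    · obtain ⟨y, hy⟩ := cv_surj (C := C) (h := he) u
      rw [u1] at hy
      subst hy
      exact Or.inr ⟨⟨x, y, cv_inj u3, cv_inj u2⟩, rfl⟩
  rcases loc C (Cor C e he) hx with ⟨a1, a2⟩ | ⟨b, g, g1, g2, g3, g4, g5, g6⟩
  · refine Or.inl ⟨fun b => ?_, fun b b' => ?_⟩
    · obtain ⟨x, hx⟩ := cv_surj (C := C) (h := he) b
      obtain ⟨r, c, hn⟩ := a1 x
      refine ⟨r, c, ?_⟩
      have := cv_nil.2 hn
      rwa [map_sub, cv_pow' _ (expChar_pow_pos (ResidueField C) _ r), cv_alg, hx] at this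
    · obtain ⟨x, hx⟩ := cv_surj (C := C) (h := he) b
      obtain ⟨y, hy⟩ := cv_surj (C := C) (h := he) b'
      have := cv_nil.2 (a2 x y)
      rwa [map_sub, cv_mul, cv_mul, hx, hy] at this
  · refine Or.inr ⟨cv b, g, hc b, g1, g2, g3, g4, ?_, fun Q hQ => g6 Q ?_⟩
    · rw [← cv_aeval]
      exact cv_nil.2 g5
    · rw [← cv_aeval] at hQ
      exact cv_nil.1 hQ

end Pool.Agent.MP_bd94e8_al.H83A
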